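import Pool.Agent.Y638.RF.MinPlus
import Pool.Agent.Y638.RF.NetGen
import Pool.Agent.X240.Gen.Log

set_option autoImplicit false

/-! # Shortcuts and networks -/

namespace Pool.Agent.X240.MP

open Finset Pool.Agent.TH697.Form Pool.Agent.TH697.Row Pool.Agent.TH697.Form.MinPlus
open Pool.Agent.TH457.Ary.MinPlus Pool.Agent.Y638.RF Pool.Agent.Y638.RF.MinPlus

variable {n c w : ℕ}

theorem approx_mono' {Ω : Type} [Fintype Ω] {X : Type} (μ : Ω → ℝ) (G : Ω → X → Bool)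
    (P P' : X → Prop) (f : X → Bool) (h : ∀ x, P' x → P x)
    (hG : ApproximatesOn μ (fun ω x => !G ω x) P f) :
    ApproximatesOn μ (fun ω x => !G ω x) P' f := fun x hx => hG x (h x hx)

theorem net_bound (hn : 256 ≤ n) (hc : 1 ≤ c) (hw : 1 ≤ w) {Ω : Type} [Fintype Ω] (μ : Ω → ℝ)
    (hμ : IsProb μ) (s : ℕ) (F : Ω → Net (Option (Fin n)) (Item n) w (n ^ c))
    (hs : ∀ ω, (F ω).size ≤ s)
    (hF : ApproximatesOn μ (fun ω => (F ω).eval) (InRange n (n + 1)) (shortcut n) ∨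
      ApproximatesOn μ (fun ω x => !(F ω).eval x) (InRange n (n + 1)) (shortcut n)) :
    (n : ℝ) ^ 3 * Real.logb 2 n ≤
      5000 * w * (n * √(Real.logb 2 n) + 83 * c * w * Real.logb 2 n) * s := by
  classical
  have hw' : (1 : ℝ) ≤ w := by exact_mod_cast hw
  have hc' : (1 : ℝ) ≤ c := by exact_mod_cast hc
  have hn' : (256 : ℝ) ≤ n := by exact_mod_cast hn
  have hs0 : (0 : ℝ) ≤ s := Nat.cast_nonneg s
  obtain ⟨l, hl⟩ : ∃ l : ℝ, l = Real.logb 2 n := ⟨_, rfl⟩
  obtain ⟨b, hb⟩ : ∃ b, b = Nat.log 2 n := ⟨_, rfl⟩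
  have hb8 : 8 ≤ b := by
    have := Nat.log_mono_right (b := 2) hn
    rw [hb]
    rwa [show Nat.log 2 256 = 8 by decide +kernel] at this
  have hpow : 2 ^ b ≤ n := by
    rw [hb]
    exact Nat.pow_log_le_self 2 (by omega)
  have hpow2 : n < 2 ^ (b + 1) := by
    have := Nat.lt_pow_succ_log_self (b := 2) (by norm_num) n
    rw [hb]
    exact this
  have hb' : (8 : ℝ) ≤ b := by exact_mod_cast hb8
  have hl1 : l ≤ 5 / 4 * b := by
    have h9 := logb_q (c := 1) (by omega) (by omega) hpow2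
    rw [hl]
    simpa using h9
  have hbl : (b : ℝ) ≤ l := by
    have h1 : ((2 : ℝ) ^ b) ≤ n := by exact_mod_cast hpow
    have h2 := Real.logb_le_logb_of_le (by norm_num : (1 : ℝ) < 2) (by positivity) h1
    rw [Real.logb_pow, Real.logb_self_eq_one (by norm_num), mul_one] at h2
    rw [hl]
    exact h2
  have hl8 : 8 ≤ l := by linarith
  have hln : l ≤ n := by
    have h1 : b < 2 ^ b := Nat.lt_two_pow_self
    have h2 : b + 1 ≤ n := by omega
    have h3 := Real.logb_le_logb_of_le (by norm_num : (1 : ℝ) < 2) (by positivity)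
      (by exact_mod_cast hpow2.le : (n : ℝ) ≤ (2 : ℝ) ^ (b + 1))
    rw [Real.logb_pow, Real.logb_self_eq_one (by norm_num), mul_one] at h3
    have h4 : ((b + 1 : ℕ) : ℝ) ≤ n := by exact_mod_cast h2
    rw [hl]
    linarith
  have hsq : 0 ≤ √l := Real.sqrt_nonneg l
  rw [← hl]
  have hX : 0 ≤ (n : ℝ) * √l := by positivity
  have hcwl : (8 : ℝ) ≤ c * w * l := by
    have : (1 : ℝ) ≤ c * w := one_le_mul_of_one_le_of_one_le hc' hw'
    nlinarith
  by_cases hsn : n ^ 4 ≤ s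
  · have h1 : (n : ℝ) ^ 4 ≤ s := by exact_mod_cast hsn
    have h2 : (n : ℝ) ^ 3 * l ≤ n ^ 4 := by
      calc (n : ℝ) ^ 3 * l ≤ n ^ 3 * n := mul_le_mul_of_nonneg_left hln (by positivity)
        _ = n ^ 4 := by ring
    have h3 : (1 : ℝ) ≤ 5000 * w * (n * √l + 83 * c * w * l) := by nlinarith
    have h4 : (s : ℝ) ≤ 5000 * w * (n * √l + 83 * c * w * l) * s :=
      le_mul_of_one_le_left hs0 h3
    linarith
  have hM : 4 * n ^ 3 * (2 * s + 1) + 2 + s ≤ n ^ 8 := by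
    have h1 : s < n ^ 4 := by omega
    have h2 : 4 * n ^ 3 * (2 * s + 1) ≤ 4 * n ^ 3 * (2 * n ^ 4) := Nat.mul_le_mul_left _ (by omega)
    have h3 : 4 * n ^ 3 * (2 * n ^ 4) = 8 * n ^ 7 := by ring
    have h4 : n ^ 4 ≤ n ^ 7 := Nat.pow_le_pow_right (by omega) (by norm_num)
    have h5 : 256 * n ^ 7 ≤ n ^ 8 := by
      calc 256 * n ^ 7 ≤ n * n ^ 7 := Nat.mul_le_mul_right _ hn
        _ = n ^ 8 := by ring
    have h6 : 1 ≤ n ^ 7 := Nat.one_le_pow _ _ (by omega)
    omega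
  have h := net_bound_le μ hμ F (InRange n (2 ^ b + 1)) (shortcut n)
    (hF.imp (approx_mono μ _ _ _ _ (fun x hx => inRange_mono (by omega) x hx))
      (approx_mono' μ _ _ _ _ (fun x hx => inRange_mono (by omega) x hx))) s hs
    (Nat.one_le_pow _ _ (by omega)) hw (n ^ 3) (n ^ 8) hM 0 (by norm_num)
    ((univ : Finset (Fin n)).map Function.Embedding.some) (T := Fin n × Fin n × Fin b) (by
      intro a ha
      rw [mem_map] at ha
      obtain ⟨i, -, rfl⟩ := ha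
      exact asks hpow i) ((n : ℝ) ^ 2 * b) (by nlinarith) (by
      simp only [Fintype.card_prod, Fintype.card_fin]
      push_cast
      apply le_of_eq
      ring)
  rw [card_map, card_univ, Fintype.card_fin, Nat.cast_pow n 8, Nat.cast_pow n c, Real.logb_pow,
    Real.logb_pow, ← hl] at h
  push_cast at h
  have h1 : √((n : ℝ) ^ 2 * b) ≤ n * √l := by
    rw [Real.sqrt_mul (by positivity), Real.sqrt_sq (by positivity)]
    exact mul_le_mul_of_nonneg_left (Real.sqrt_le_sqrt hbl) (by positivity)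
  have h2 : 3 + 10 * (8 * l) + 2 * ((w : ℝ) - 1) * (c * l) ≤ 83 * c * w * l := by
    have h3 : 0 ≤ (w : ℝ) - 1 := by linarith
    have h4 : 3 + 10 * (8 * l) ≤ 81 * l := by linarith
    have h5 : l ≤ c * l := by nlinarith
    have h6 : 0 ≤ ((w : ℝ) - 1) * (c * l) := by positivity
    nlinarith
  have h3 : √((n : ℝ) ^ 2 * b) + (3 + 10 * (8 * l) + 2 * ((w : ℝ) - 1) * (c * l)) ≤
      n * √l + 83 * c * w * l := by linarith
  have h4 : 4000 * (w : ℝ) * (√((n : ℝ) ^ 2 * b) + (3 + 10 * (8 * l) +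
      2 * ((w : ℝ) - 1) * (c * l))) * s ≤ 4000 * w * (n * √l + 83 * c * w * l) * s :=
    mul_le_mul_of_nonneg_right (mul_le_mul_of_nonneg_left h3 (by linarith)) hs0
  have h5 : (n : ℝ) ^ 3 * l ≤ n ^ 3 * (5 / 4 * b) := mul_le_mul_of_nonneg_left hl1 (by positivity)
  have e1 : (n : ℝ) ^ 3 * (5 / 4 * b) = 5 / 4 * (n * (n ^ 2 * b)) := by ring
  have e2 : 5000 * (w : ℝ) * (n * √l + 83 * c * w * l) * s =
      5 / 4 * (4000 * w * (n * √l + 83 * c * w * l) * s) := by ring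
  rw [e1] at h5
  rw [e2]
  linarith

end Pool.Agent.X240.MP
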